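import Pool.Agent.H93.QD.POS
import Pool.Agent.H43.QO.TargetsB

/-!
# LVP: the violated part of the density is small on squares (board qo_modules, helper42)
-/

set_option autoImplicit false

namespace Pool.Agent.H42.QO

open Finset Pool.Agent.H76.QE Pool.Agent.H43.QO Pool.Agent.H93.QD
open Pool.Agent.H1.LP (supp ip comb)
open H43.PS (PosDeg Low av)
open Pool.Agent.H73.OX (ch)

theorem supp_card_zero {p M : ℕ} : (supp (0 : Fin M → ZMod p)).card = 0 := by
  simp [supp]

theorem supp_card_pos {p M : ℕ} {C : Fin M → ZMod p} (h : C ≠ 0) : 0 < (supp C).card := by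
  rw [card_pos]
  by_contra hc
  rw [not_nonempty_iff_eq_empty] at hc
  apply h
  funext i
  by_contra hi
  have : i ∈ supp C := by
    simp only [supp, mem_filter, mem_univ, true_and]
    exact hi
  rw [hc] at this
  exact absurd this (notMem_empty i)

theorem comb_zero' {p M N : ℕ} (A : Fin M → Fin N → ZMod p) : comb A 0 = 0 := by
  funext j
  simp [comb]

/-- bound for the rows of the kernel -/
theorem row_all {p M N E h t₀ t₁ τ : ℕ} [Fact p.Prime] (A : Fin M → Fin N → ZMod p) (hV : T_COV)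
    (hN : NoStar A E h t₀ t₁) (hE : 1 ≤ E) (h4 : 2 * τ ≤ t₁) (hI : Indp A t₁) (β : ℝ)
    (hβ : 0 ≤ β) (x : Fin N → ZMod p) (κ : (Fin M → ZMod p) → ℂ) (h0 : κ 0 = 0)
    (hg : ∀ C : Fin M → ZMod p, ‖κ C‖ * (2 * E * (CC p M t₀).card) ≤ β) :
    ∑ y ∈ BB p N h, ∑ C ∈ CC p M τ, (if comb A C = y - x then ‖κ C‖ else 0) ≤ β := by
  classical
  have key := row_le (s := 0) (h := h) (τ := τ) A hV hN hE h4 β hβ x (fun C => ‖κ C‖)
    (fun C => norm_nonneg _) (fun C _ => hg C) (fun y => y ≠ x) (fun y _ hyx C hC => by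
      refine supp_card_pos fun h0 => hyx ?_
      rw [h0, comb_zero'] at hC
      exact (sub_eq_zero.mp hC.symm))
  refine le_trans (sum_le_sum fun y _ => ?_) key
  by_cases hyx : y = x
  · rw [if_neg (not_not.mpr hyx)]
    refine le_of_eq (sum_eq_zero fun C hC => ?_)
    rw [mem_CC] at hC
    by_cases hc : comb A C = y - x
    · rw [if_pos hc]
      rw [hyx, sub_self] at hc
      rw [hI C (by omega) hc, h0, norm_zero]
    · rw [if_neg hc]
  · rw [if_pos hyx]

open Classical in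
theorem pf_LVP (VKE : T_VKE) (PSV : T_PSV) (FOU : T_FOU) (COV : T_COV) (SCH : T_SCH) :
    T_LVP := by
  intro p R N E h t₀ τ t₁ hp A b β hE hβ hI hN hτ h2 hKF i f hf
  obtain ⟨a, ha⟩ := FOU p N h f hf
  have hn0 : (0 : ℝ) < 2 * E * (CC p (R + R) t₀).card := by
    have h1 : 0 < (CC p (R + R) t₀).card := by
      refine card_pos.mpr ⟨0, ?_⟩
      rw [mem_CC, supp_card_zero]
      exact Nat.zero_le _
    have h2 : (0 : ℝ) < ((CC p (R + R) t₀).card : ℝ) := by exact_mod_cast h1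
    have h3 : (0 : ℝ) < (E : ℝ) := by exact_mod_cast hE
    positivity
  have hp0 : (0 : ℝ) < (p : ℝ) ^ 2 := by
    have h1 : 0 < p := hp.out.pos
    have h2 : (0 : ℝ) < (p : ℝ) := by exact_mod_cast h1
    positivity
  set n0 : ℝ := 2 * E * (CC p (R + R) t₀).card with hn0d
  obtain ⟨κ, hκ0, hκ1, hκ2⟩ := VKE p R N τ t₁ A b i (β / ((p : ℝ) ^ 2 * n0)) hI hτ
    (by positivity) (fun C hC => by
      rw [le_div_iff₀ (by positivity)]
      have h3 := hKF C hC
      have h4 : ‖KF b C‖ * ((p : ℝ) ^ 2 * n0) = (p : ℝ) ^ 2 * ‖KF b C‖ * n0 := by ring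
      rw [h4]
      exact h3)
  have hκa := hκ2 (BB p N h) a f ha
  have hpsv := PSV p N (BB p N h) a f ha
  have hg : ∀ C : Fin (R + R) → ZMod p, ‖κ C‖ * n0 ≤ β := by
    intro C
    have h3 := mul_le_mul_of_nonneg_right (hκ1 C) hn0.le
    refine h3.trans (le_of_eq ?_)
    have h6 : (p : ℝ) ^ 2 * n0 ≠ 0 := (mul_pos hp0 hn0).ne'
    have h7 : (p : ℝ) ^ 2 * (β / ((p : ℝ) ^ 2 * n0)) * n0 =
        β / ((p : ℝ) ^ 2 * n0) * ((p : ℝ) ^ 2 * n0) := by ring
    rw [h7]
    exact div_mul_cancel₀ β h6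
  have hg' : ∀ C : Fin (R + R) → ZMod p, ‖κ (-C)‖ * n0 ≤ β := fun C => hg (-C)
  have hz : κ 0 = 0 := hκ0 0 (by rw [supp_card_zero]; omega)
  set k : (Fin N → ZMod p) → (Fin N → ZMod p) → ℂ := fun x y =>
    ∑ C ∈ (CC p (R + R) (τ + 2)).filter (fun C => comb A C = y - x), κ C with hk
  have hnorm : ∀ x y : Fin N → ZMod p, ‖k x y‖ ≤
      ∑ C ∈ CC p (R + R) (τ + 2), (if comb A C = y - x then ‖κ C‖ else 0) := by
    intro x y
    rw [hk]
    simp only
    rw [← sum_filter]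
    exact norm_sum_le _ _
  have hrow : ∀ x ∈ BB p N h, ∑ y ∈ BB p N h, ‖k x y‖ ≤ β := by
    intro x _
    refine (sum_le_sum fun y _ => hnorm x y).trans ?_
    exact row_all A COV hN hE h2 hI β hβ x κ hz hg
  have hcol : ∀ y ∈ BB p N h, ∑ x ∈ BB p N h, ‖k x y‖ ≤ β := by
    intro y _
    refine (sum_le_sum fun x _ => hnorm x y).trans ?_
    have e2 : ∀ x : Fin N → ZMod p,
        (∑ C ∈ CC p (R + R) (τ + 2), (if comb A C = y - x then ‖κ C‖ else 0)) =
        (∑ C ∈ CC p (R + R) (τ + 2), (if comb A C = x - y then ‖κ (-C)‖ else 0)) := by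
      intro x
      refine sum_nbij' (fun C => -C) (fun C => -C) ?_ ?_ ?_ ?_ ?_
      · intro C hC
        rw [mem_CC] at hC ⊢
        rwa [supp_neg']
      · intro C hC
        rw [mem_CC] at hC ⊢
        rwa [supp_neg']
      · intro C _
        exact neg_neg C
      · intro C _
        exact neg_neg C
      · intro C _
        simp only [neg_neg]
        rw [comb_neg']
        by_cases hc : comb A C = y - x
        · rw [if_pos hc, if_pos (by rw [hc]; abel)]
        · rw [if_neg hc, if_neg]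
          intro h'
          apply hc
          rw [← neg_neg (comb A C), h']
          abel
    rw [sum_congr rfl (fun x _ => e2 x)]
    exact row_all A COV hN hE h2 hI β hβ y (fun C => κ (-C)) (by rw [neg_zero]; exact hz) hg'
  have h1 := SCH (Fin N → ZMod p) (BB p N h) k β hrow hcol a
  have h3 := SCH (Fin N → ZMod p) (BB p N h) (fun x y => -k x y) β
    (fun x hx => by simpa only [norm_neg] using hrow x hx)
    (fun y hy => by simpa only [norm_neg] using hcol y hy) a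
  have h4 : (∑ x ∈ BB p N h, ∑ y ∈ BB p N h, a x * (starRingEnd ℂ) (a y) * -k x y).re =
      -(∑ x ∈ BB p N h, ∑ y ∈ BB p N h, a x * (starRingEnd ℂ) (a y) * k x y).re := by
    simp only [mul_neg, sum_neg_distrib, Complex.neg_re]
  rw [h4] at h3
  rw [hκa, hpsv, abs_mul, abs_of_nonneg (by positivity : (0 : ℝ) ≤ (p : ℝ) ^ N)]
  have h5 : |(∑ x ∈ BB p N h, ∑ y ∈ BB p N h, a x * (starRingEnd ℂ) (a y) * k x y).re| ≤
      β * ∑ x ∈ BB p N h, ‖a x‖ ^ 2 := by
    rw [abs_le]
    constructor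
    · linarith
    · linarith
  calc (p : ℝ) ^ N * |(∑ x ∈ BB p N h, ∑ y ∈ BB p N h,
        a x * (starRingEnd ℂ) (a y) * k x y).re|
      ≤ (p : ℝ) ^ N * (β * ∑ x ∈ BB p N h, ‖a x‖ ^ 2) :=
        mul_le_mul_of_nonneg_left h5 (by positivity)
    _ = β * ((p : ℝ) ^ N * ∑ x ∈ BB p N h, ‖a x‖ ^ 2) := by ring

end Pool.Agent.H42.QO
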