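import Pool.Agent.H43.QO.TargetsA

/-!
# MONO: a fixed list of relaxations gives a small exponent for constraints chosen after the
formula (board qo_modules, helper42)
-/

set_option autoImplicit false

namespace Pool.Agent.H42.QO

open Finset Matrix
open Pool.Agent.H1.LP (Clause viol)
open Pool.Agent.H49.SDP (SRelax HardS SRefuted)
open Pool.Agent.H91.UV (URelax S_TOS)
open Pool.Agent.H43.QO

/-- the index set of the blocks -/
abbrev Bl {n : ℕ} (P : Pool n) : Type := Fin P.nb ⊕ (Fin P.nc ⊕ Fin P.nc)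

/-- the index set of the variables -/
abbrev Va {n : ℕ} (P : Pool n) : Type := Fin P.dim ⊕ Fin P.nc

/-- orders of the blocks -/
def ordG {n : ℕ} (P : Pool n) : Bl P → ℕ
  | Sum.inl i => P.ord i
  | Sum.inr _ => 1

/-- constant matrices -/
def B0G {n : ℕ} (P : Pool n) : (i : Bl P) → Matrix (Fin (ordG P i)) (Fin (ordG P i)) ℝ
  | Sum.inl i => P.B0 i
  | Sum.inr (Sum.inl t) => Matrix.of fun _ _ => - P.w0 t
  | Sum.inr (Sum.inr _) => 0

/-- coefficient matrices -/
def BG {n : ℕ} (P : Pool n) : (i : Bl P) → Va P → Matrix (Fin (ordG P i)) (Fin (ordG P i)) ℝ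
  | Sum.inl i, Sum.inl k => P.B i k
  | Sum.inl _, Sum.inr _ => 0
  | Sum.inr (Sum.inl t), Sum.inl k => Matrix.of fun _ _ => - P.w t k
  | Sum.inr (Sum.inl t), Sum.inr s => Matrix.of fun _ _ => if s = t then 1 else 0
  | Sum.inr (Sum.inr _), Sum.inl _ => 0
  | Sum.inr (Sum.inr t), Sum.inr s => Matrix.of fun _ _ => if s = t then 1 else 0

/-- points -/
noncomputable def ptG {n : ℕ} (P : Pool n) (x : Fin n → Bool) : Va P → ℝ
  | Sum.inl k => P.pt x k
  | Sum.inr t => max (P.loss t (P.pt x)) 0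

open Classical in
/-- the linear part of the loss -/
noncomputable def wG {n : ℕ} (P : Pool n) (C : Clause n) : Va P → ℝ
  | Sum.inl _ => 0
  | Sum.inr t => if P.cl t = C then 1 / ((P.nc : ℝ) + 1) else 0

theorem one_psd (m : ℕ) (hm : m = 1) (a : ℝ) :
    (Matrix.of (fun _ _ => a) : Matrix (Fin m) (Fin m) ℝ).PosSemidef ↔ 0 ≤ a := by
  subst hm
  constructor
  · intro h
    have := h.diag_nonneg (i := 0)
    simpa using this
  · intro h
    have h1 : (Matrix.of (fun _ _ => a) : Matrix (Fin 1) (Fin 1) ℝ) =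
        Matrix.diagonal (fun _ => a) := by
      ext i j
      rw [Subsingleton.elim i j]
      simp
    rw [h1]
    exact Matrix.PosSemidef.diagonal (fun _ => h)

theorem sumG_inl {n : ℕ} (P : Pool n) (i : Fin P.nb) (z : Va P → ℝ) :
    B0G P (Sum.inl i) + ∑ k, z k • BG P (Sum.inl i) k =
      P.B0 i + ∑ k, z (Sum.inl k) • P.B i k := by
  rw [Fintype.sum_sum_type]
  simp only [BG, B0G, smul_zero, sum_const_zero, add_zero]
  rfl

theorem sumG_inrl {n : ℕ} (P : Pool n) (t : Fin P.nc) (z : Va P → ℝ) :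
    B0G P (Sum.inr (Sum.inl t)) + ∑ k, z k • BG P (Sum.inr (Sum.inl t)) k =
      Matrix.of fun _ _ => z (Sum.inr t) - P.loss t (fun k => z (Sum.inl k)) := by
  rw [Fintype.sum_sum_type]
  ext a b
  simp only [BG, B0G, Matrix.add_apply, Matrix.of_apply, Matrix.sum_apply, Matrix.smul_apply,
    smul_eq_mul, mul_ite, mul_one, mul_zero, sum_ite_eq', mem_univ, if_true, mul_neg,
    sum_neg_distrib, Pool.loss]
  have h1 : ∑ k, z (Sum.inl k) * P.w t k = ∑ k, P.w t k * z (Sum.inl k) :=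
    sum_congr rfl fun k _ => mul_comm _ _
  rw [h1]
  ring

theorem sumG_inrr {n : ℕ} (P : Pool n) (t : Fin P.nc) (z : Va P → ℝ) :
    B0G P (Sum.inr (Sum.inr t)) + ∑ k, z k • BG P (Sum.inr (Sum.inr t)) k =
      Matrix.of fun _ _ => z (Sum.inr t) := by
  rw [Fintype.sum_sum_type]
  ext a b
  simp only [BG, B0G, Matrix.add_apply, Matrix.of_apply, Matrix.sum_apply, Matrix.smul_apply,
    smul_eq_mul, mul_ite, mul_one, mul_zero, sum_ite_eq', mem_univ, if_true, Matrix.zero_apply,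
    sum_const_zero, zero_add]

theorem lossG {n : ℕ} (P : Pool n) (C : Clause n) (z : Va P → ℝ) :
    ∑ k, wG P C k * z k =
      ∑ t, (open Classical in if P.cl t = C then 1 / ((P.nc : ℝ) + 1) else 0) * z (Sum.inr t) := by
  rw [Fintype.sum_sum_type]
  simp only [wG, zero_mul, sum_const_zero, zero_add]

/-- feasibility of the extended program -/
theorem psdG {n : ℕ} (P : Pool n) (z : Va P → ℝ) :
    (∀ i, (B0G P i + ∑ k, z k • BG P i k).PosSemidef) ↔
      (∀ i, (P.B0 i + ∑ k, z (Sum.inl k) • P.B i k).PosSemidef) ∧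
      ∀ t, P.loss t (fun k => z (Sum.inl k)) ≤ z (Sum.inr t) ∧ 0 ≤ z (Sum.inr t) := by
  constructor
  · intro h
    refine ⟨fun i => ?_, fun t => ⟨?_, ?_⟩⟩
    · have := h (Sum.inl i)
      rw [sumG_inl] at this
      exact this
    · have := h (Sum.inr (Sum.inl t))
      rw [sumG_inrl] at this
      have h1 := (one_psd 1 rfl _).mp this
      linarith
    · have := h (Sum.inr (Sum.inr t))
      rw [sumG_inrr] at this
      exact (one_psd 1 rfl _).mp this
  · rintro ⟨h1, h2⟩ i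
    rcases i with i | t | t
    · rw [sumG_inl]
      exact h1 i
    · rw [sumG_inrl]
      exact (one_psd 1 rfl _).mpr (by linarith [(h2 t).1])
    · rw [sumG_inrr]
      exact (one_psd 1 rfl _).mpr (h2 t).2

theorem loss_ptG {n : ℕ} (P : Pool n) (x : Fin n → Bool) (hx : x ∈ P.cell) (t : Fin P.nc) :
    0 ≤ max (P.loss t (P.pt x)) 0 ∧ max (P.loss t (P.pt x)) 0 ≤ 1 := by
  refine ⟨le_max_right _ _, max_le ?_ zero_le_one⟩
  exact (abs_le.mp (P.bdd x hx t)).2

/-- the relaxation which belongs to a pool -/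
noncomputable def toU {n : ℕ} (P : Pool n) : URelax n where
  cell := P.cell
  dim := Fintype.card (Va P)
  nb := Fintype.card (Bl P)
  ord i := ordG P ((Fintype.equivFin (Bl P)).symm i)
  B0 i := B0G P ((Fintype.equivFin (Bl P)).symm i)
  B i k := BG P ((Fintype.equivFin (Bl P)).symm i) ((Fintype.equivFin (Va P)).symm k)
  pt x k := ptG P x ((Fintype.equivFin (Va P)).symm k)
  w C k := wG P C ((Fintype.equivFin (Va P)).symm k)
  w0 _ := 0
  symm0 i := by
    generalize (Fintype.equivFin (Bl P)).symm i = j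
    rcases j with j | t | t
    · exact P.symm0 j
    · ext a b
      simp [B0G]
    · ext a b
      simp [B0G]
  symm i k := by
    generalize (Fintype.equivFin (Bl P)).symm i = j
    generalize (Fintype.equivFin (Va P)).symm k = l
    rcases j with j | t | t <;> rcases l with l | s
    · exact P.symm j l
    all_goals
      ext a b
      simp [BG]
  feas x hx i := by
    have h := (psdG P (ptG P x)).mpr ⟨fun i => P.feas x hx i,
      fun t => ⟨le_max_left _ _, (loss_ptG P x hx t).1⟩⟩ ((Fintype.equivFin (Bl P)).symm i)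
    rw [← Equiv.sum_comp (Fintype.equivFin (Va P)).symm] at h
    exact h
  bdd x hx C := by
    rw [Equiv.sum_comp (Fintype.equivFin (Va P)).symm (fun k => wG P C k * ptG P x k), lossG,
      add_zero]
    have h1 : ∀ t : Fin P.nc, 0 ≤
        (open Classical in if P.cl t = C then 1 / ((P.nc : ℝ) + 1) else 0) * ptG P x (Sum.inr t) ∧
        (open Classical in if P.cl t = C then 1 / ((P.nc : ℝ) + 1) else 0) * ptG P x (Sum.inr t) ≤
          1 / ((P.nc : ℝ) + 1) := by
      intro t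
      have h2 := loss_ptG P x hx t
      have h3 : (0 : ℝ) ≤ 1 / ((P.nc : ℝ) + 1) := by positivity
      by_cases hc : P.cl t = C
      · rw [if_pos hc]
        exact ⟨mul_nonneg h3 h2.1, mul_le_of_le_one_right h3 h2.2⟩
      · rw [if_neg hc, zero_mul]
        exact ⟨le_rfl, h3⟩
    rw [abs_le]
    constructor
    · have := sum_nonneg fun (t : Fin P.nc) (_ : t ∈ univ) => (h1 t).1
      linarith
    · refine (sum_le_sum fun (t : Fin P.nc) _ => (h1 t).2).trans ?_
      rw [sum_const, card_univ, Fintype.card_fin, nsmul_eq_mul, mul_one_div,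
        div_le_one (by positivity)]
      linarith
  sound x hx C hC := by
    rw [Equiv.sum_comp (Fintype.equivFin (Va P)).symm (fun k => wG P C k * ptG P x k), lossG,
      add_zero]
    refine le_of_eq (sum_eq_zero fun t _ => ?_)
    by_cases hc : P.cl t = C
    · have h1 : P.loss t (P.pt x) ≤ 0 := P.sound x hx t (by rw [hc]; exact hC)
      have h2 : ptG P x (Sum.inr t) = 0 := max_eq_right h1
      rw [h2, mul_zero]
    · rw [if_neg hc, zero_mul]

theorem toU_refutes {n m : ℕ} (P : Pool n) (phi : Fin m → Clause n) (I : Finset (Fin P.nb))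
    (T : Finset (Fin P.nc)) (de : ℝ) (hT : ∀ t ∈ T, ∃ i, phi i = P.cl t)
    (hI : P.Infeas I T de) : (toU P).Refutes phi (de / ((P.nc : ℝ) + 1)) := by
  intro y hy
  have hN : (0 : ℝ) < (P.nc : ℝ) + 1 := by positivity
  obtain ⟨y', hy'⟩ : ∃ y' : Fin (Fintype.card (Va P)) → ℝ, y' = y := ⟨y, rfl⟩
  obtain ⟨z, hz⟩ : ∃ z : Va P → ℝ, z = fun k => y' (Fintype.equivFin (Va P) k) := ⟨_, rfl⟩
  have hyz : ∀ k, y' k = z ((Fintype.equivFin (Va P)).symm k) := by
    intro k
    rw [hz]
    simp only [Equiv.apply_symm_apply]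
  have hyy : ∀ i : Fin (Fintype.card (Bl P)), (B0G P ((Fintype.equivFin (Bl P)).symm i) +
      ∑ k : Fin (Fintype.card (Va P)), y' k • BG P ((Fintype.equivFin (Bl P)).symm i)
        ((Fintype.equivFin (Va P)).symm k)).PosSemidef := by
    rw [hy']
    exact hy
  have hz1 : ∀ i, (B0G P i + ∑ k, z k • BG P i k).PosSemidef := by
    intro i
    have h := hyy (Fintype.equivFin (Bl P) i)
    have h' : ∀ j : Bl P, ∑ k : Fin (Fintype.card (Va P)), y' k • BG P j
        ((Fintype.equivFin (Va P)).symm k) = ∑ k, z k • BG P j k := by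
      intro j
      rw [← Equiv.sum_comp (Fintype.equivFin (Va P)).symm (fun k => z k • BG P j k)]
      exact sum_congr rfl fun k _ => by rw [hyz k]
    rw [h', Equiv.symm_apply_apply] at h
    exact h
  obtain ⟨h1, h2⟩ := (psdG P z).mp hz1
  obtain ⟨t, ht, hde⟩ := hI (fun k => z (Sum.inl k)) (fun i _ => h1 i)
  obtain ⟨i0, hi0⟩ := hT t ht
  have hloss : ∀ C : Clause n, (toU P).loss C y =
      ∑ t, (open Classical in if P.cl t = C then 1 / ((P.nc : ℝ) + 1) else 0) *
        z (Sum.inr t) := by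
    intro C
    have h : (toU P).loss C y = ∑ k : Fin (Fintype.card (Va P)),
        wG P C ((Fintype.equivFin (Va P)).symm k) * y' k + 0 := by
      rw [hy']
      rfl
    rw [h, sum_congr rfl (fun k _ => by rw [hyz k]),
      Equiv.sum_comp (Fintype.equivFin (Va P)).symm (fun k => wG P C k * z k), lossG, add_zero]
  have hnn : ∀ (C : Clause n) (s : Fin P.nc), 0 ≤
      (open Classical in if P.cl s = C then 1 / ((P.nc : ℝ) + 1) else 0) * z (Sum.inr s) := by
    intro C s
    refine mul_nonneg ?_ (h2 s).2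
    split_ifs
    · positivity
    · exact le_rfl
  have h3 : (toU P).loss (phi i0) y ≤ ∑ i, (toU P).loss (phi i) y := by
    refine single_le_sum (f := fun i => (toU P).loss (phi i) y) (fun i _ => ?_) (mem_univ i0)
    simp only [hloss]
    exact sum_nonneg fun s _ => hnn _ s
  refine le_trans ?_ h3
  rw [hloss]
  have h4 := single_le_sum (f := fun s => (open Classical in if P.cl s = phi i0 then
    1 / ((P.nc : ℝ) + 1) else 0) * z (Sum.inr s)) (fun s _ => hnn (phi i0) s) (mem_univ t)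
  refine le_trans ?_ h4
  rw [if_pos hi0.symm, div_eq_mul_one_div, mul_comm]
  exact mul_le_mul_of_nonneg_left (hde.trans (h2 t).1) (by positivity)

theorem toU_ord {n : ℕ} (P : Pool n) :
    ((∑ i, (toU P).ord i : ℕ) : ℝ) + 1 ≤ 2 * P.sizeOf univ univ := by
  have h1 : ∑ i, (toU P).ord i = ∑ i, P.ord i + (P.nc + P.nc) := by
    have h : ∑ i, (toU P).ord i =
        ∑ i : Fin (Fintype.card (Bl P)), ordG P ((Fintype.equivFin (Bl P)).symm i) := rfl
    rw [h, Equiv.sum_comp (Fintype.equivFin (Bl P)).symm (fun i => ordG P i),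
      Fintype.sum_sum_type, Fintype.sum_sum_type]
    simp only [ordG, sum_const, card_univ, Fintype.card_fin, smul_eq_mul, mul_one]
  rw [h1]
  unfold Pool.sizeOf
  rw [card_univ, Fintype.card_fin]
  push_cast
  have h2 : (0 : ℝ) ≤ ∑ i, (P.ord i : ℝ) := sum_nonneg fun i _ => Nat.cast_nonneg _
  linarith

theorem sum_sq_le42 {M : ℕ} (f : Fin M → ℝ) (hf : ∀ j, 0 ≤ f j) :
    ∑ j, f j ^ 2 ≤ (∑ j, f j) ^ 2 := by
  rw [sq (∑ j, f j), sum_mul]
  refine sum_le_sum fun j hj => ?_
  rw [sq]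
  exact mul_le_mul_of_nonneg_left (single_le_sum (fun i _ => hf i) hj) (hf j)

theorem pf_MONO (TOS : S_TOS) : S_MONO := by
  intro k ε c hc hH
  classical
  obtain ⟨K, γ, hγ, n₀, hn⟩ := hH
  have hc' : 0 < min (c / 4) (γ / 2) := lt_min (by linarith) (by linarith)
  obtain ⟨c', hc'd⟩ : ∃ c', c' = min (c / 4) (γ / 2) := ⟨_, rfl⟩
  rw [← hc'd] at hc'
  have hc1 : c' ≤ c / 4 := hc'd ▸ min_le_left _ _
  have hc2 : c' ≤ γ / 2 := hc'd ▸ min_le_right _ _
  refine ⟨c', hc', K, γ / 2, by linarith, max n₀ ⌈4 / c⌉₊, fun n hn0 => ?_⟩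
  have hn1 : n₀ ≤ n := (le_max_left _ _).trans hn0
  have hn2 : 4 / c ≤ (n : ℝ) := by
    refine (Nat.le_ceil _).trans ?_
    exact_mod_cast (le_max_right _ _).trans hn0
  have hn3 : 4 ≤ c * n := by
    rw [div_le_iff₀ hc] at hn2
    linarith
  have hnn : (0 : ℝ) ≤ (n : ℝ) := Nat.cast_nonneg n
  obtain ⟨Y, m, phi, hY, hphi, hP⟩ := hn n hn1
  refine ⟨Y, m, phi, hY, hphi, fun M P hsize => ?_⟩
  have hT' : ∀ j, ∃ Q : SRelax n, Q.cell = (toU (P j)).cell ∧ Q.ord = ∑ i, (toU (P j)).ord i ∧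
      ∀ (m : ℕ) (phi : Fin m → Clause n) (de : ℝ), (toU (P j)).Refutes phi de →
        Q.Refutes phi de := fun j => TOS n (toU (P j))
  choose Q hcell hord href using hT'
  have h0 : ∀ j, (0 : ℝ) ≤ ((Q j).ord : ℝ) + 1 := fun j => by positivity
  have hle : ∀ j, ((Q j).ord : ℝ) + 1 ≤ 2 * (P j).sizeOf univ univ := fun j => by
    rw [hord j]
    exact toU_ord (P j)
  have hs0 : ∀ j, 0 ≤ (P j).sizeOf univ univ := by
    intro j
    have := (h0 j).trans (hle j)
    linarith
  have hsum : ∑ j, (((Q j).ord : ℝ) + 1) ^ 2 ≤ (2 : ℝ) ^ (c * n) := by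
    calc ∑ j, (((Q j).ord : ℝ) + 1) ^ 2 ≤ (∑ j, (((Q j).ord : ℝ) + 1)) ^ 2 :=
          sum_sq_le42 _ h0
      _ ≤ (2 * (2 : ℝ) ^ (c' * n)) ^ 2 := by
          refine pow_le_pow_left₀ (sum_nonneg fun j _ => h0 j) ?_ 2
          refine (sum_le_sum fun j _ => hle j).trans ?_
          rw [← mul_sum]
          exact mul_le_mul_of_nonneg_left hsize (by norm_num)
      _ = (2 : ℝ) ^ (2 + 2 * c' * n) := by
          rw [mul_pow, ← Real.rpow_natCast ((2 : ℝ) ^ (c' * n)), ← Real.rpow_mul (by norm_num),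
            Real.rpow_add (by norm_num)]
          have e1 : c' * n * ((2 : ℕ) : ℝ) = 2 * c' * n := by push_cast; ring
          have e2 : (2 : ℝ) ^ (2 : ℝ) = 2 ^ 2 := by norm_num
          rw [e1, e2]
      _ ≤ (2 : ℝ) ^ (c * n) := by
          refine Real.rpow_le_rpow_of_exponent_le (by norm_num) ?_
          nlinarith
  have hmar : ∀ j, (2 : ℝ) ^ (-(γ * n)) ≤
      (2 : ℝ) ^ (-(γ / 2 * n)) / (((P j).nc : ℝ) + 1) := by
    intro j
    have h1 : ((P j).nc : ℝ) + 1 ≤ (2 : ℝ) ^ (c' * n) := by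
      have h2 : ((P j).nc : ℝ) + 1 ≤ (P j).sizeOf univ univ := by
        unfold Pool.sizeOf
        rw [card_univ, Fintype.card_fin]
        have h3 : (0 : ℝ) ≤ ∑ i, ((P j).ord i : ℝ) := sum_nonneg fun i _ => Nat.cast_nonneg _
        linarith
      refine h2.trans (le_trans ?_ hsize)
      exact single_le_sum (f := fun j => (P j).sizeOf univ univ) (fun i _ => hs0 i) (mem_univ j)
    rw [le_div_iff₀ (by positivity)]
    calc (2 : ℝ) ^ (-(γ * n)) * (((P j).nc : ℝ) + 1)
        ≤ (2 : ℝ) ^ (-(γ * n)) * (2 : ℝ) ^ (c' * n) :=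
          mul_le_mul_of_nonneg_left h1 (by positivity)
      _ = (2 : ℝ) ^ (-(γ * n) + c' * n) := by rw [Real.rpow_add (by norm_num)]
      _ ≤ (2 : ℝ) ^ (-(γ / 2 * n)) := by
          refine Real.rpow_le_rpow_of_exponent_le (by norm_num) ?_
          nlinarith
  have hfin := hP M Q hsum
  have hsub : (univ.filter (fun a => RefutedBy P (phi a) ((2 : ℝ) ^ (-(γ / 2 * n)))
      ((2 : ℝ) ^ (c' * n)))) ⊆
      (univ.filter (fun a => SRefuted Q (phi a) ((2 : ℝ) ^ (-(γ * n))))) := by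
    intro a ha
    rw [mem_filter] at ha ⊢
    refine ⟨ha.1, ?_⟩
    obtain ⟨J, I, T, h1, h2, h3, _⟩ := ha.2
    refine ⟨J, ?_, ?_, ?_⟩
    · intro j hj j' hj' hne
      rw [hcell j, hcell j']
      exact h1 j hj j' hj' hne
    · intro x
      obtain ⟨j, hj, hx⟩ := h2 x
      exact ⟨j, hj, by rw [hcell j]; exact hx⟩
    · intro j hj
      have h4 := href j _ (phi a) _ (toU_refutes (P j) (phi a) (I j) (T j) _ (h3 j hj).1
        (h3 j hj).2)
      intro y hy
      exact (hmar j).trans (h4 y hy)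
  calc ((univ.filter (fun a => RefutedBy P (phi a) ((2 : ℝ) ^ (-(γ / 2 * n)))
        ((2 : ℝ) ^ (c' * n)))).card : ℝ)
      ≤ ((univ.filter (fun a => SRefuted Q (phi a) ((2 : ℝ) ^ (-(γ * n))))).card : ℝ) := by
        exact_mod_cast card_le_card hsub
    _ ≤ (2 : ℝ) ^ (-(γ * n)) * Y := hfin
    _ ≤ (2 : ℝ) ^ (-(γ / 2 * n)) * Y := by
        refine mul_le_mul_of_nonneg_right ?_ (Nat.cast_nonneg _)
        refine Real.rpow_le_rpow_of_exponent_le (by norm_num) ?_
        nlinarith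

end Pool.Agent.H42.QO
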